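import Mathlib
import Pool.Agent.W484.CK.Main
import Pool.Agent.Y159.Par.Parshin

/-!
# Parshin's conjecture and products with almost all abelian varieties
-/

set_option autoImplicit false

namespace Pool.Agent.Results.MP_27fd67_ag.AlmostAllAbelianFactors

open Polynomial Pool.Agent.W521.Descent Pool.Agent.W521.Count Pool.Agent.W484.TB
  Pool.Agent.W484.CK Pool.Agent.Y159.Par

/-- `weilPolys q g` is the set of monic integral polynomials of degree `2 g` with constant term
`q ^ g` and all roots of absolute value `√q`; `ordinaryWeilPolys q g` is the subset of those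
whose coefficient of index `g` is prime to `q`. -/
theorem result {I : Type} [Fintype I] (g : I → ℕ) (r : ℕ) (hr : ∀ i, r < g i)
    (E : IntermediateField ℚ ℂ) [FiniteDimensional ℚ E] :
    ∃ C : ℝ, ∀ q : ℕ, IsPrimePow q → ∀ S : I → Set ℤ[X],
      (∀ i, ordinaryWeilPolys q (g i) ⊆ S i ∧ S i ⊆ weilPolys q (g i)) →
      (∀ i, (S i).Finite ∧ (S i).Nonempty) ∧
      ({f : I → ℤ[X] | (∀ i, f i ∈ S i) ∧ ¬ ParshinForRankOver E q r f}.ncard : ℝ) ≤
        C * (Real.log q * (q : ℝ) ^ (-(1 / 6) : ℝ)) * ∏ i, ((S i).ncard : ℝ) :=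
  count_of_goodU (splitPrimes E) (dense_splitPrimes E) g
    (fun i => (Nat.zero_le r).trans_lt (hr i)) (fun q f => ParshinForRankOver E q r f)
    fun _ hq x hx => parshinForRankOver_of_motivic
      (motivicForRankOver_of_good g E hq.one_lt r hr x hx)

end Pool.Agent.Results.MP_27fd67_ag.AlmostAllAbelianFactors
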