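import Pool.Agent.Y137.GN.More

/-!
# Parshin's conjecture for varieties generated by abelian varieties of dimension at most five and by
products of elliptic curves and abelian surfaces

Let `k` be a finite field. An abelian variety over `k` is modelled by `RedAV` (Honda, Tate): a finite
product of CM types `(E i, Φ i)` with Weil numbers `π i ∈ E i` that satisfy the formula of Shimura
and Taniyama; its cohomology of degree `n` consists of the alternating `n`-forms on the Tate module
`Ω ⊗ H_1`, on which the Frobenius endomorphism acts by `π`. The coefficients `Ω` are an algebraic
closure of `ℚ_ℓ`. The good abelian varieties `Y` (`IsGoodAVS`) are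

* **all abelian varieties of dimension at most five**;
* all products (up to isogeny over an algebraic closure) of a supersingular abelian variety and of
  powers of simple abelian varieties of dimension at most three, where any two of these of dimension
  three which are not supersingular and not isogenous have CM fields with different Galois closures,
  or Galois CM fields: in particular **all products of any number of elliptic curves and abelian
  surfaces**.

**Theorem.** Let `X` be a smooth projective scheme over `k` whose Chow motive (with rational
coefficients) is a direct summand of a sum of twists of the motives of good abelian varieties `Y l`.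
Then `K_m(X) ⊗ ℚ = 0` for all `m ≥ 1`. Examples are the abelian varieties of dimension at most five,
the products of any number of elliptic curves, abelian surfaces and curves of genus at most two, and
their symmetric powers.

In the Lean statement `C l` is the theory of cycles and `M l` are the rational motivic cohomology
groups of `Y l`. The groups `K m = K_m(X) ⊗ ℚ` are the sums of the motivic cohomology groups
`H^{2 n - m}(X, ℚ(n))` and these embed into the sums of the groups
`H^{2 n - m - 2 r l}(Y l, ℚ(n - r l))` (`IsKTheory`).

The inputs are theorems: on an abelian variety over `k`, the Tate classes over `k` in the system `AlgS`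
are combinations of classes of cycles (`IsChowS`: Tate, Markman, Ramón Marí); homologically trivial
correspondences are nilpotent (Kimura); the properties of motivic cohomology (`IsMotivic`, Quillen)
and of the homology theories. New is that all Tate classes on the good abelian varieties are in `AlgS`
(`Pool.Agent.Results.MP_ee618e_ag.SurfacesAndDimensionFive`). The passage from the Tate conjecture to
higher Chow groups is due to Soulé, Geisser, Kahn and Jannsen.
-/

set_option autoImplicit false

namespace Pool.Agent.Results.MP_27fd67_ag.SurfacesAndDimensionFive

open Pool.Agent.W495.TA Pool.Agent.W495.FM Pool.Agent.Y137.GN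

/-- The groups `K m = K_m(X) ⊗ ℚ` are the rational algebraic `K`-groups of a smooth projective
variety `X` whose Chow motive is a direct summand of the sum of the motives of the abelian varieties
`Y l`, twisted `r l` times: they embed into the products of the motivic cohomology groups of the `Y l`
(`K_m(X) ⊗ ℚ` is the direct sum of the `H^(2 n - m)(X, ℚ(n))`, by the Adams operations). -/
def IsKTheory {p : ℕ} [Fact p.Prime] {ν : PadicAlgCl p ≃+* ℂ} {Ω : Type} [Field Ω] [CharZero Ω]
    {I : Type} {Y : I → RedAV p ν} {C : ∀ l, Cycles Ω (Y l)} (M : ∀ l, Motivic (C l))
    (r : I → ℤ) (K : ℕ → Type) [∀ m, AddCommGroup (K m)] : Prop :=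
  ∃ φ : ∀ (m : ℕ) (n : ℤ) (l : I), K m →+ (M l).H (2 * n - m - 2 * r l) (n - r l),
    ∀ (m : ℕ) (x : K m), (∀ n l, φ m n l x = 0) → x = 0

/-- Parshin's conjecture for all smooth projective varieties generated by abelian varieties of
dimension at most five and by products of elliptic curves and abelian surfaces. -/
theorem result (p : ℕ) [Fact p.Prime] (ν : PadicAlgCl p ≃+* ℂ) (Ω : Type) [Field Ω]
    [IsAlgClosed Ω] [CharZero Ω] {I : Type} (Y : I → RedAV p ν) (hY : ∀ l, IsGoodAVS (Y l))
    (C : ∀ l, Cycles Ω (Y l)) (hC : ∀ l, IsChowS (C l)) (M : ∀ l, Motivic (C l))
    (hM : ∀ l, IsMotivic (M l)) (r : I → ℤ) (K : ℕ → Type) [∀ m, AddCommGroup (K m)]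
    (hK : IsKTheory M r K) (m : ℕ) (hm : 1 ≤ m) (x : K m) : x = 0 := by
  obtain ⟨φ, hφ⟩ := hK
  exact hφ m x fun n l => motivic_goodS (hY l) (hC l) (hM l) _ _ (by omega) _

end Pool.Agent.Results.MP_27fd67_ag.SurfacesAndDimensionFive
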